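import Pool.Agent.helper85.SQ.Defs
import Pool.Agent.helper74.TG.SW

/-!
# Project SQ, module FL: `Σ Λ(n)` over `n ≡ -1 (p²)`, `n ≡ b (M)`, on average over `p`
-/

namespace Pool.Agent.helper85.SQ

open Finset ArithmeticFunction Pool.Agent.helper85.BVP

/-- The prime powers of `p` up to `N` weigh at most `log N`. -/
theorem FL_powers (N p : ℕ) (hp : p.Prime) (hN : 1 ≤ N) :
    ∑ n ∈ Ioc 0 N with p ∣ n, vonMangoldt n ≤ Real.log N := by
  classical
  set K := Nat.log p N with hK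
  have hpK : p ^ K ≤ N := Nat.pow_log_le_self p (by omega)
  have h1 : ∑ n ∈ Ioc 0 N with p ∣ n, vonMangoldt n ≤ ∑ d ∈ (p ^ K).divisors, vonMangoldt d := by
    have hs : ∑ n ∈ Ioc 0 N with p ∣ n, vonMangoldt n
        = ∑ n ∈ (Ioc 0 N).filter (fun n => p ∣ n ∧ vonMangoldt n ≠ 0), vonMangoldt n := by
      rw [← Finset.sum_filter_ne_zero, Finset.filter_filter]
    rw [hs]
    refine Finset.sum_le_sum_of_subset_of_nonneg ?_ (fun _ _ _ => vonMangoldt_nonneg)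
    intro n hn
    rw [Finset.mem_filter, Finset.mem_Ioc] at hn
    obtain ⟨⟨h0, hnN⟩, hpn, hΛ⟩ := hn
    rw [vonMangoldt_ne_zero_iff, isPrimePow_nat_iff] at hΛ
    obtain ⟨q, k, hq, hk, rfl⟩ := hΛ
    have hpq : p = q := (Nat.prime_dvd_prime_iff_eq hp hq).1 (hp.dvd_of_dvd_pow hpn)
    subst hpq
    rw [Nat.mem_divisors]
    refine ⟨pow_dvd_pow p ?_, pow_ne_zero _ hp.pos.ne'⟩
    exact (Nat.le_log_iff_pow_le hp.one_lt (by omega)).2 hnN
  refine h1.trans ?_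
  rw [vonMangoldt_sum]
  exact Real.log_le_log (by exact_mod_cast pow_pos hp.pos K) (by exact_mod_cast hpK)

/-- The identity behind the kernel `km`. -/
theorem FL_split (M b p N : ℕ) :
    ∑ n ∈ Ioc 0 N, vonMangoldt n * km M b (p ^ 2) (p ^ 2 - 1) n
      = ∑ n ∈ Ioc 0 N with n ≡ b [MOD M] ∧ n ≡ p ^ 2 - 1 [MOD p ^ 2], vonMangoldt n
        - (∑ n ∈ Ioc 0 N with n ≡ b [MOD M] ∧ Nat.Coprime n (p ^ 2), vonMangoldt n)
          / (Nat.totient (p ^ 2) : ℝ) := by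
  rw [Finset.sum_filter, Finset.sum_filter, Finset.sum_div, ← Finset.sum_sub_distrib]
  refine Finset.sum_congr rfl (fun n _ => ?_)
  unfold km kr
  by_cases h1 : n ≡ b [MOD M]
  · by_cases h2 : n ≡ p ^ 2 - 1 [MOD p ^ 2]
    · by_cases h3 : Nat.Coprime n (p ^ 2)
      · rw [if_pos h1, if_pos h2, if_pos h3, if_pos ⟨h1, h2⟩, if_pos ⟨h1, h3⟩]; ring
      · rw [if_pos h1, if_pos h2, if_neg h3, if_pos ⟨h1, h2⟩, if_neg (fun h => h3 h.2)]; ring
    · by_cases h3 : Nat.Coprime n (p ^ 2)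
      · rw [if_pos h1, if_neg h2, if_pos h3, if_neg (fun h => h2 h.2), if_pos ⟨h1, h3⟩]; ring
      · rw [if_pos h1, if_neg h2, if_neg h3, if_neg (fun h => h2 h.2),
          if_neg (fun h => h3 h.2)]; ring
  · rw [if_neg h1, if_neg (fun h => h1 h.1), if_neg (fun h => h1 h.1)]; ring

/-- Primes to `p` in a class. -/
theorem FL_coprime (M b p N : ℕ) (hp : p.Prime) (hN : 1 ≤ N) :
    ∑ n ∈ Ioc 0 N with n ≡ b [MOD M], vonMangoldt n - Real.log N
      ≤ ∑ n ∈ Ioc 0 N with n ≡ b [MOD M] ∧ Nat.Coprime n (p ^ 2), vonMangoldt n := by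
  classical
  have h1 : ∑ n ∈ Ioc 0 N with n ≡ b [MOD M], vonMangoldt n
      ≤ ∑ n ∈ Ioc 0 N with n ≡ b [MOD M] ∧ Nat.Coprime n (p ^ 2), vonMangoldt n
        + ∑ n ∈ Ioc 0 N with p ∣ n, vonMangoldt n := by
    rw [Finset.sum_filter, Finset.sum_filter, Finset.sum_filter, ← Finset.sum_add_distrib]
    refine Finset.sum_le_sum (fun n _ => ?_)
    have h0 : (0 : ℝ) ≤ vonMangoldt n := vonMangoldt_nonneg
    by_cases h1 : n ≡ b [MOD M]
    · by_cases h2 : p ∣ n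
      · simp only [h1, h2, if_true]
        split_ifs <;> linarith
      · have h3 : Nat.Coprime n (p ^ 2) :=
          Nat.Coprime.pow_right 2 ((Nat.Prime.coprime_iff_not_dvd hp).2 h2).symm
        rw [if_pos h1, if_neg h2, if_pos ⟨h1, h3⟩]
        linarith
    · rw [if_neg h1, if_neg (fun h => h1 h.1)]
      split_ifs <;> linarith
  have h2 := FL_powers N p hp hN
  linarith

/-- **FL**, from the mean value theorem `bv_sq`. -/
theorem psi_large_of
    (bv_sq : ∀ (M b : ℕ) (_ : 0 < M) (_ : Nat.Coprime b M), ∃ L₀ : ℝ, ∀ (x : ℕ) (L : ℝ),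
      L = 1 + Real.log x → L₀ ≤ L → ∀ Q : ℕ, L ^ 9 ≤ Q → (Q : ℝ) ^ 3 * L ^ 20 ≤ √x →
      ∀ P : Finset ℕ, (∀ p ∈ P, p.Prime ∧ ¬ p ∣ M ∧ p ≤ Q ∧ Q ≤ 2 * p) →
      ∀ c : ℕ → ℕ, (∀ p ∈ P, Nat.Coprime (c p) (p ^ 2)) →
      ∑ p ∈ P, |∑ n ∈ Ioc 0 x, vonMangoldt n * km M b (p ^ 2) (c p) n| ≤ x / (Q * L ^ 2))
    (M b : ℕ) (hM : 0 < M) (hb : Nat.Coprime b M) : ∃ N₀ : ℕ, ∀ N : ℕ, N₀ ≤ N →
    ∀ P : ℕ, Real.log N ^ 10 ≤ P → (P : ℝ) ^ 3 * Real.log N ^ 21 ≤ √N →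
    ∀ S : Finset ℕ, (∀ p ∈ S, p.Prime ∧ ¬ p ∣ M ∧ p ≤ P ∧ P ≤ 2 * p) →
    ∑ p ∈ S, (N : ℝ) / (2 * (Nat.totient M : ℝ) * (p : ℝ) ^ 2) - N / (P * Real.log N ^ 2)
      ≤ ∑ p ∈ S, ∑ n ∈ Ioc 0 N with n ≡ b [MOD M] ∧ n ≡ p ^ 2 - 1 [MOD p ^ 2],
          vonMangoldt n := by
  classical
  obtain ⟨L₀, hL₀⟩ := bv_sq M b hM hb
  obtain ⟨C, x₀, hC, hSW⟩ := Pool.Agent.helper74.TG.siegel_walfisz 1 1
  have hφ : (0 : ℝ) < Nat.totient M := by exact_mod_cast Nat.totient_pos.2 hM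
  have ht : Filter.Tendsto (fun N : ℕ => Real.log (N : ℝ)) Filter.atTop Filter.atTop :=
    Real.tendsto_log_atTop.comp tendsto_natCast_atTop_atTop
  have hlin : Filter.Tendsto (fun N : ℕ => Real.log (N : ℝ) / (N : ℝ)) Filter.atTop (nhds 0) := by
    have h := Real.isLittleO_log_id_atTop.tendsto_div_nhds_zero.comp
      (tendsto_natCast_atTop_atTop (R := ℝ))
    exact h
  have e1 := ht.eventually_ge_atTop (max L₀ (max ((2 : ℝ) ^ 20) (max (M : ℝ)
    (4 * C * Nat.totient M))))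
  have e2 := (tendsto_natCast_atTop_atTop (R := ℝ)).eventually_ge_atTop (max x₀ 1)
  have e3 := hlin.eventually_le_const (show (0 : ℝ) < 1 / (4 * Nat.totient M) by positivity)
  obtain ⟨N₀, hN₀⟩ := Filter.eventually_atTop.1 ((e1.and e2).and e3)
  refine ⟨N₀, fun N hN P hP1 hP2 S hS => ?_⟩
  obtain ⟨⟨h1, h2⟩, h3⟩ := hN₀ N hN
  have hLL : L₀ ≤ Real.log N := (le_max_left _ _).trans h1
  have h20 : (2 : ℝ) ^ 20 ≤ Real.log N :=
    (le_max_left _ _).trans ((le_max_right _ _).trans h1)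
  have hMl : (M : ℝ) ≤ Real.log N :=
    (le_max_left _ _).trans ((le_max_right _ _).trans ((le_max_right _ _).trans h1))
  have hCl : 4 * C * Nat.totient M ≤ Real.log N :=
    (le_max_right _ _).trans ((le_max_right _ _).trans ((le_max_right _ _).trans h1))
  have hx₀ : x₀ ≤ (N : ℝ) := (le_max_left _ _).trans h2
  have hN1 : (1 : ℝ) ≤ N := (le_max_right _ _).trans h2
  have hN1' : 1 ≤ N := by exact_mod_cast hN1
  have hNpos : (0 : ℝ) < N := by linarith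
  set l : ℝ := Real.log N with hl
  have hl1 : (1 : ℝ) ≤ l := le_trans (by norm_num) h20
  have hl0 : (0 : ℝ) < l := by linarith
  -- the class `b` mod `M`
  have hsw := hSW N hx₀ M hM (by simpa using hMl) b hb N le_rfl
  rw [pow_one] at hsw
  have hψ : (N : ℝ) / (2 * Nat.totient M)
      ≤ ∑ n ∈ Ioc 0 N with n ≡ b [MOD M], vonMangoldt n - l := by
    have ha := (abs_le.1 hsw).1
    have hb' : C * (N : ℝ) / l ≤ N / (4 * Nat.totient M) := by
      rw [div_le_div_iff₀ hl0 (by positivity)]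
      nlinarith [mul_le_mul_of_nonneg_left hCl hNpos.le]
    have hc : l ≤ N / (4 * Nat.totient M) := by
      rw [div_le_iff₀ hNpos] at h3
      calc l ≤ 1 / (4 * Nat.totient M) * N := h3
        _ = N / (4 * Nat.totient M) := by ring
    have hd : (N : ℝ) / Nat.totient M = N / (2 * Nat.totient M) + N / (4 * Nat.totient M)
        + N / (4 * Nat.totient M) := by field_simp; ring
    linarith
  -- the mean value theorem
  have hL1 : 1 + l ≤ 2 * l := by linarith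
  have hbv := hL₀ N (1 + l) rfl (by linarith) P
    (by
      refine le_trans ?_ hP1
      calc (1 + l) ^ 9 ≤ (2 * l) ^ 9 := by gcongr
        _ = 2 ^ 9 * l ^ 9 := by ring
        _ ≤ l * l ^ 9 := by
            gcongr
            exact le_trans (by norm_num) h20
        _ = l ^ 10 := by ring)
    (by
      refine le_trans ?_ hP2
      gcongr
      calc (1 + l) ^ 20 ≤ (2 * l) ^ 20 := by gcongr
        _ = 2 ^ 20 * l ^ 20 := by ring
        _ ≤ l * l ^ 20 := by gcongr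
        _ = l ^ 21 := by ring)
    S hS (fun p => p ^ 2 - 1)
    (by
      intro p hp
      have hp2 : 1 ≤ p ^ 2 := Nat.one_le_pow _ _ (hS p hp).1.pos
      have : Nat.Coprime (p ^ 2 - 1) (p ^ 2 - 1 + 1) := by simp
      rwa [Nat.sub_add_cancel hp2] at this)
  have hPpos : (0 : ℝ) < P := lt_of_lt_of_le (by positivity) hP1
  have herr : (N : ℝ) / (P * (1 + l) ^ 2) ≤ N / (P * l ^ 2) := by
    gcongr
    linarith
  -- per prime
  have hper : ∀ p ∈ S, (N : ℝ) / (2 * (Nat.totient M : ℝ) * (p : ℝ) ^ 2)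
      - |∑ n ∈ Ioc 0 N, vonMangoldt n * km M b (p ^ 2) (p ^ 2 - 1) n|
      ≤ ∑ n ∈ Ioc 0 N with n ≡ b [MOD M] ∧ n ≡ p ^ 2 - 1 [MOD p ^ 2], vonMangoldt n := by
    intro p hp
    have hpp := (hS p hp).1
    have hs := FL_split M b p N
    have hc := FL_coprime M b p N hpp hN1'
    have hφp : (0 : ℝ) < Nat.totient (p ^ 2) := by
      exact_mod_cast Nat.totient_pos.2 (pow_pos hpp.pos 2)
    have hφle : (Nat.totient (p ^ 2) : ℝ) ≤ (p : ℝ) ^ 2 := by
      exact_mod_cast Nat.totient_le (p ^ 2)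
    have h5 : (N : ℝ) / (2 * (Nat.totient M : ℝ) * (p : ℝ) ^ 2)
        ≤ (∑ n ∈ Ioc 0 N with n ≡ b [MOD M] ∧ Nat.Coprime n (p ^ 2), vonMangoldt n)
          / (Nat.totient (p ^ 2) : ℝ) := by
      calc (N : ℝ) / (2 * (Nat.totient M : ℝ) * (p : ℝ) ^ 2)
          = (N / (2 * Nat.totient M)) / (p : ℝ) ^ 2 := by rw [div_div]
        _ ≤ (N / (2 * Nat.totient M)) / (Nat.totient (p ^ 2) : ℝ) := by gcongr
        _ ≤ _ := by
            gcongr
            linarith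
    have h6 := (abs_le.1 (le_refl
      |∑ n ∈ Ioc 0 N, vonMangoldt n * km M b (p ^ 2) (p ^ 2 - 1) n|)).1
    linarith
  have hsum := Finset.sum_le_sum hper
  rw [Finset.sum_sub_distrib] at hsum
  linarith

end Pool.Agent.helper85.SQ
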